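import Pool.Agent.Helper68_Proj2.Key

/-!
# The good property of the spaces `F k M`
-/

set_option autoImplicit false

namespace Pool.Agent.Helper68_Proj2

open Module Finset

/-- The normed space `Z` has many directions in which rank one perturbations of the identity
are large. -/
def Good (c : ℝ) (Z : Type) [NormedAddCommGroup Z] [NormedSpace ℝ Z] : Prop :=
  ∀ (x : Z) (f : Z →ₗ[ℝ] ℝ), 0 < f x → ∃ (v : Z) (φ : Z →ₗ[ℝ] ℝ),
    ‖v‖ ≤ 1 ∧ (∀ z, |φ z| ≤ ‖z‖) ∧ c ≤ φ v ∧ f v ≤ 0 ∧ 0 ≤ φ x ∧ c * f x ≤ -(f v * φ x)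

lemma good_of_normalized {c : ℝ} {Z : Type} [NormedAddCommGroup Z] [NormedSpace ℝ Z]
    (h : ∀ (x : Z) (f : Z →ₗ[ℝ] ℝ), ‖x‖ = 1 → f x = 1 → ∃ (v : Z) (φ : Z →ₗ[ℝ] ℝ),
      ‖v‖ ≤ 1 ∧ (∀ z, |φ z| ≤ ‖z‖) ∧ c ≤ φ v ∧ f v ≤ 0 ∧ 0 ≤ φ x ∧ c ≤ -(f v * φ x)) :
    Good c Z := by
  intro x f hfx
  have hx0 : x ≠ 0 := by
    rintro rfl
    rw [map_zero] at hfx
    exact lt_irrefl _ hfx
  have hN : 0 < ‖x‖ := norm_pos_iff.2 hx0
  obtain ⟨v, φ, h1, h2, h3, h4, h5, h6⟩ := h (‖x‖⁻¹ • x) ((‖x‖ / f x) • f)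
    (by rw [norm_smul, norm_inv, norm_norm, inv_mul_cancel₀ hN.ne'])
    (by
      rw [LinearMap.smul_apply, map_smul, smul_eq_mul, smul_eq_mul]
      field_simp)
  rw [LinearMap.smul_apply, smul_eq_mul] at h4 h6
  rw [map_smul, smul_eq_mul] at h5 h6
  have hfx' : 0 < ‖x‖ / f x := div_pos hN hfx
  refine ⟨v, φ, h1, h2, h3, ?_, ?_, ?_⟩
  · by_contra hcon
    push Not at hcon
    have := mul_pos hfx' hcon
    linarith
  · by_contra hcon
    push Not at hcon
    have := mul_neg_of_pos_of_neg (inv_pos.2 hN) hcon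
    linarith
  · have h7 : -(‖x‖ / f x * f v * (‖x‖⁻¹ * φ x)) = -(f v * φ x) / f x := by
      field_simp
    rw [h7, le_div_iff₀ hfx] at h6
    exact h6

theorem good_F {k M L : ℕ} (hM : 2 ≤ M) (hL : 0 < L) (hk : 0 < k) {η c : ℝ} (hη0 : 0 ≤ η)
    (hη1 : η ≤ 1) (hηk : 2 ≤ η * (k * (2 / (M:ℝ)) ^ L))
    (hc1 : c ≤ (1 - η) / (1 + 2 / L) - η)
    (hc2 : c ≤ (1 - η) / (1 + 2 / L) * (1 - 2 / M)) : Good c (F k M) := by
  classical
  have hM' : (2:ℝ) ≤ M := by exact_mod_cast hM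
  have hL' : (0:ℝ) < L := by exact_mod_cast hL
  have hk' : (0:ℝ) < k := by exact_mod_cast hk
  apply good_of_normalized
  intro x f hx hfx
  obtain ⟨a, ha, hxa⟩ := exists_norm_eq x
  rw [hx] at hxa
  set ω := x a with hω
  have hωω : ω * ω = 1 := by
    rw [← abs_mul_abs_self, hxa]; norm_num
  choose i hi using fun l => exists_i (by omega) x a l hωω hω.symm
  set q := (2 / (M:ℝ)) ^ L with hq
  have hq0 : 0 < q := (theta_bd hM L).1
  -- the best `l`
  have : Nonempty (Fin k) := ⟨⟨0, hk⟩⟩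
  obtain ⟨l0, hl0⟩ := Finite.exists_min (fun l => |f (D x a L l (i l))|)
  set m := |f (D x a L l0 (i l0))| with hm
  have hm0 : 0 ≤ m := abs_nonneg _
  set σ : Fin k → ℝ := fun l => if 0 ≤ f (D x a L l (i l)) then 1 else -1 with hσ
  have hσ1 : ∀ l, |σ l| ≤ 1 := by
    intro l
    simp only [hσ]
    split <;> simp
  have hσ2 : ∀ l, σ l * f (D x a L l (i l)) = |f (D x a L l (i l))| := by
    intro l
    simp only [hσ]
    split
    · rename_i h; rw [one_mul, abs_of_nonneg h]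
    · rename_i h; rw [abs_of_neg (not_le.1 h)]; ring
  set u : F k M := q • ∑ l, σ l • D x a L l (i l) with hu
  have hu1 : ‖u‖ ≤ 1 := normC hM x hx.le a ha hL i σ hσ1
  have hfu : q * (k * m) ≤ f u := by
    rw [hu, map_smul, map_sum, smul_eq_mul]
    apply mul_le_mul_of_nonneg_left _ hq0.le
    have : ∑ l : Fin k, m ≤ ∑ l, f (σ l • D x a L l (i l)) := by
      refine Finset.sum_le_sum fun l _ => ?_
      rw [map_smul, smul_eq_mul, hσ2]
      exact hl0 l
    rw [Finset.sum_const, Finset.card_univ, Fintype.card_fin, nsmul_eq_mul] at this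
    exact this
  set Λ := 1 + 2 / (L:ℝ) with hΛ
  have hΛ1 : 1 ≤ Λ := by
    rw [hΛ]
    have : 0 ≤ 2 / (L:ℝ) := by positivity
    linarith
  have hΛ0 : 0 < Λ := by linarith
  set κ := (1 - η) / Λ with hκ
  have hκ0 : 0 ≤ κ := div_nonneg (by linarith) hΛ0.le
  have hκ1 : κ ≤ 1 := by
    rw [hκ, div_le_one hΛ0]; linarith
  have hκΛ : κ * Λ = 1 - η := by rw [hκ]; field_simp
  set y : F k M := x - (2:ℝ) • D x a L l0 (i l0) with hy
  have hy1 : ‖y‖ ≤ Λ := normA hM x hx.le a ha hL l0 (i l0)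
  set t := tp a l0 (i l0) with ht
  have htS : ∀ l', IsSign (t l') := isSign_tp ha l0 (i l0)
  set v : F k M := -(κ • y) - η • u with hv
  refine ⟨v, ω • F.ev t, ?_, ?_, ?_, ?_, ?_, ?_⟩
  · calc ‖v‖ ≤ ‖-(κ • y)‖ + ‖η • u‖ := norm_sub_le _ _
      _ = κ * ‖y‖ + η * ‖u‖ := by
          rw [norm_neg, norm_smul, norm_smul, Real.norm_of_nonneg hκ0, Real.norm_of_nonneg hη0]
      _ ≤ κ * Λ + η * 1 := by
          gcongr
      _ = 1 := by rw [hκΛ]; ring
  · intro z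
    rw [LinearMap.smul_apply, F.ev_apply, smul_eq_mul, abs_mul, hxa, one_mul]
    exact abs_le_norm z t htS
  · have h1 : y t = -ω := by
      rw [hy, F.sub_apply, F.smul_apply, D_tp (by omega) x a ha hL]
      rw [← ht, ← hω]; ring
    have h2 : |u t| ≤ 1 := (abs_le_norm u t htS).trans hu1
    have h3 : |ω * u t| ≤ 1 := by rw [abs_mul, hxa, one_mul]; exact h2
    have h4 : v t = -(κ * y t) - η * u t := by
      rw [hv]
      rw [F.sub_apply, F.smul_apply]
      congr 1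
    rw [LinearMap.smul_apply, F.ev_apply, smul_eq_mul, h4, h1]
    have h5 : ω * (-(κ * -ω) - η * u t) = κ * (ω * ω) - η * (ω * u t) := by ring
    rw [h5, hωω]
    have h6 : η * (ω * u t) ≤ η * 1 := mul_le_mul_of_nonneg_left (le_of_abs_le h3) hη0
    linarith
  all_goals
    have hfv : f v = -(κ * (1 - 2 * f (D x a L l0 (i l0)))) - η * f u := by
      rw [hv, map_sub, map_neg, map_smul, map_smul, hy, map_sub, map_smul, hfx]
      simp only [smul_eq_mul]
    have hfv2 : f v ≤ -κ := by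
      have h1 : f (D x a L l0 (i l0)) ≤ m := le_abs_self _
      have h2 : κ * (2 * f (D x a L l0 (i l0))) ≤ 2 * m := by
        calc κ * (2 * f (D x a L l0 (i l0))) ≤ κ * (2 * m) :=
              mul_le_mul_of_nonneg_left (by linarith) hκ0
          _ ≤ 1 * (2 * m) := mul_le_mul_of_nonneg_right hκ1 (by linarith)
          _ = 2 * m := one_mul _
      have h3 : 2 * m ≤ η * f u := by
        calc 2 * m ≤ (η * (k * q)) * m := mul_le_mul_of_nonneg_right hηk hm0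
          _ = η * (q * (k * m)) := by ring
          _ ≤ η * f u := mul_le_mul_of_nonneg_left hfu hη0
      rw [hfv]
      linarith
    have hφx : 1 - 2 / (M:ℝ) ≤ (ω • F.ev t) x := hi l0
    have hM2 : 0 ≤ 1 - 2 / (M:ℝ) := by
      have : 2 / (M:ℝ) ≤ 1 := by rw [div_le_one (by linarith)]; exact hM'
      linarith
  · linarith
  · linarith
  · have h1 : κ * (1 - 2 / (M:ℝ)) ≤ (-f v) * ((ω • F.ev t) x) :=
      mul_le_mul (by linarith) hφx hM2 (by linarith)
    linarith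

end Pool.Agent.Helper68_Proj2
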