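import Pool.Agent.Helper68_Proj2.Space

/-!
# Multi-scale random product flips
-/

set_option autoImplicit false

namespace Pool.Agent.Helper68_Proj2

open Module Finset

lemma F.map_upd_add {k M : ℕ} (x : F k M) (u : Fin k → Fin M → ℝ) (l : Fin k)
    (v w : Fin M → ℝ) :
    x (Function.update u l (v + w)) = x (Function.update u l v) + x (Function.update u l w) :=
  MultilinearMap.map_update_add (x : MultilinearMap ℝ (fun _ : Fin k => Fin M → ℝ) ℝ) u l v w

lemma F.map_upd_smul {k M : ℕ} (x : F k M) (u : Fin k → Fin M → ℝ) (l : Fin k)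
    (c : ℝ) (v : Fin M → ℝ) :
    x (Function.update u l (c • v)) = c * x (Function.update u l v) :=
  MultilinearMap.map_update_smul (x : MultilinearMap ℝ (fun _ : Fin k => Fin M → ℝ) ℝ) u l c v

lemma F.map_zero_coord {k M : ℕ} (x : F k M) (u : Fin k → Fin M → ℝ) (l : Fin k)
    (h : u l = 0) : x u = 0 :=
  MultilinearMap.map_coord_zero (x : MultilinearMap ℝ (fun _ : Fin k => Fin M → ℝ) ℝ) l h

lemma expand {k M : ℕ} (x : F k M) (u w : Fin k → Fin M → ℝ) (p q : Fin k → ℝ)
    (hp : ∀ l, 0 ≤ p l) (hx : ∀ S : Finset (Fin k), |x (S.piecewise u w)| ≤ 1) :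
    |x (fun l => p l • u l + q l • w l) - (∏ l, p l) * x u|
      ≤ ∏ l, (p l + |q l|) - ∏ l, p l := by
  classical
  have e1 : x (fun l => p l • u l + q l • w l)
      = ∑ S : Finset (Fin k), (∏ l, (S.piecewise p q) l) * x (S.piecewise u w) := by
    have h := MultilinearMap.map_add_univ
      (x : MultilinearMap ℝ (fun _ : Fin k => Fin M → ℝ) ℝ)
      (fun l => p l • u l) (fun l => q l • w l)
    refine Eq.trans h ?_
    refine Finset.sum_congr rfl fun S _ => ?_
    have h3 : S.piecewise (fun l => p l • u l) (fun l => q l • w l)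
        = fun l => (S.piecewise p q) l • (S.piecewise u w) l := by
      funext l
      by_cases hl : l ∈ S <;> simp [hl]
    rw [h3]
    exact MultilinearMap.map_smul_univ
      (x : MultilinearMap ℝ (fun _ : Fin k => Fin M → ℝ) ℝ) (S.piecewise p q) (S.piecewise u w)
  have e2 : ∏ l, (p l + |q l|)
      = ∑ S : Finset (Fin k), ∏ l, (S.piecewise p (fun l => |q l|)) l := by
    have h := MultilinearMap.map_add_univ (MultilinearMap.mkPiAlgebra ℝ (Fin k) ℝ)
      p (fun l => |q l|)
    simpa [MultilinearMap.mkPiAlgebra_apply] using h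
  have hU : (Finset.univ : Finset (Finset (Fin k)))
      = insert Finset.univ ((Finset.univ : Finset (Finset (Fin k))).erase Finset.univ) := by
    rw [Finset.insert_erase (Finset.mem_univ _)]
  have hn : (Finset.univ : Finset (Fin k)) ∉
      (Finset.univ : Finset (Finset (Fin k))).erase Finset.univ := by simp
  rw [e1, e2, hU, Finset.sum_insert hn, Finset.sum_insert hn]
  simp only [Finset.piecewise_univ]
  rw [add_sub_cancel_left, add_sub_cancel_left]
  refine (Finset.abs_sum_le_sum_abs _ _).trans (Finset.sum_le_sum fun S _ => ?_)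
  rw [abs_mul, Finset.abs_prod]
  have h4 : ∏ l, |S.piecewise p q l| = ∏ l, (S.piecewise p (fun l => |q l|)) l := by
    refine Finset.prod_congr rfl fun l _ => ?_
    by_cases hl : l ∈ S
    · simp [hl, abs_of_nonneg (hp l)]
    · simp [hl]
  rw [h4]
  have h5 : 0 ≤ ∏ l, (S.piecewise p (fun l => |q l|)) l := by
    refine Finset.prod_nonneg fun l _ => ?_
    by_cases hl : l ∈ S
    · simp [hl, hp l]
    · simp [hl]
  exact mul_le_of_le_one_right h5 (hx S)

/-- The normalised inner product. -/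
noncomputable def rr {M : ℕ} (a w : Fin M → ℝ) : ℝ := (∑ i, a i * w i) / M

lemma rr_add {M : ℕ} (a v w : Fin M → ℝ) : rr a (v + w) = rr a v + rr a w := by
  unfold rr
  rw [← add_div, ← Finset.sum_add_distrib]
  congr 1
  refine Finset.sum_congr rfl fun i _ => ?_
  rw [Pi.add_apply]; ring

lemma rr_smul {M : ℕ} (a : Fin M → ℝ) (c : ℝ) (w : Fin M → ℝ) : rr a (c • w) = c * rr a w := by
  unfold rr
  rw [mul_div_assoc', Finset.mul_sum]
  congr 1
  refine Finset.sum_congr rfl fun i _ => ?_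
  rw [Pi.smul_apply, smul_eq_mul]; ring

/-- The averaging operator `T`. -/
noncomputable def T {M : ℕ} (a : Fin M → ℝ) (θ : ℝ) : (Fin M → ℝ) →ₗ[ℝ] (Fin M → ℝ) where
  toFun w := (1 - θ) • w + (θ * rr a w) • a
  map_add' v w := by
    rw [rr_add]
    funext i
    simp only [Pi.add_apply, Pi.smul_apply, smul_eq_mul]
    ring
  map_smul' c w := by
    rw [rr_smul]
    funext i
    simp only [Pi.add_apply, Pi.smul_apply, smul_eq_mul, RingHom.id_apply]
    ring

/-- The flip operator `R`. -/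
noncomputable def R {M : ℕ} (a : Fin M → ℝ) (i : Fin M) : (Fin M → ℝ) →ₗ[ℝ] (Fin M → ℝ) where
  toFun w := (1 / 2 : ℝ) • (w + (-(w i * a i)) • a)
  map_add' v w := by
    funext j
    simp only [Pi.add_apply, Pi.smul_apply, smul_eq_mul]
    ring
  map_smul' c w := by
    funext j
    simp only [Pi.add_apply, Pi.smul_apply, smul_eq_mul, RingHom.id_apply]
    ring

lemma T_apply {M : ℕ} (a : Fin M → ℝ) (θ : ℝ) (w : Fin M → ℝ) :
    T a θ w = (1 - θ) • w + (θ * rr a w) • a := rfl

lemma R_apply {M : ℕ} (a : Fin M → ℝ) (i : Fin M) (w : Fin M → ℝ) :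
    R a i w = (1 / 2 : ℝ) • (w + (-(w i * a i)) • a) := rfl

/-- The building block `E`. -/
noncomputable def E {k M : ℕ} (x : F k M) (a : Fin k → Fin M → ℝ) (θ : ℝ) (l : Fin k)
    (i : Fin M) : F k M :=
  MultilinearMap.compLinearMap (x : MultilinearMap ℝ (fun _ : Fin k => Fin M → ℝ) ℝ)
    (fun l' => if l' = l then R (a l) i else T (a l') θ)

lemma E_apply {k M : ℕ} (x : F k M) (a : Fin k → Fin M → ℝ) (θ : ℝ) (l : Fin k)
    (i : Fin M) (u : Fin k → Fin M → ℝ) :
    E x a θ l i u = x (fun l' => if l' = l then R (a l) i (u l) else T (a l') θ (u l')) := by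
  show x (fun l' => (if l' = l then R (a l) i else T (a l') θ) (u l')) = _
  congr 1
  funext l'
  by_cases h : l' = l
  · subst h; simp
  · simp [h]

lemma sign_mul {M : ℕ} {a : Fin M → ℝ} (ha : IsSign a) (i : Fin M) : a i * a i = 1 := by
  rcases ha i with h | h <;> rw [h] <;> norm_num

lemma sign_abs {M : ℕ} {a : Fin M → ℝ} (ha : IsSign a) (i : Fin M) : |a i| = 1 := by
  rcases ha i with h | h <;> rw [h] <;> norm_num

lemma rr_self {M : ℕ} (hM : 0 < M) {a : Fin M → ℝ} (ha : IsSign a) : rr a a = 1 := by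
  unfold rr
  have : ∑ i, a i * a i = (M : ℝ) := by
    rw [Finset.sum_congr rfl fun i _ => sign_mul ha i]
    simp
  rw [this, div_self]
  exact_mod_cast hM.ne'

lemma rr_neg {M : ℕ} (a w : Fin M → ℝ) : rr a (-w) = - rr a w := by
  have := rr_smul a (-1) w
  rw [neg_one_smul] at this
  rw [this]; ring

lemma T_const {M : ℕ} (hM : 0 < M) {a w : Fin M → ℝ} (ha : IsSign a) (θ : ℝ)
    (h : w = a ∨ w = -a) : T a θ w = w := by
  rcases h with rfl | rfl
  · rw [T_apply, rr_self hM ha, mul_one, ← add_smul]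
    simp
  · rw [T_apply, rr_neg, rr_self hM ha]
    funext j
    simp only [Pi.add_apply, Pi.smul_apply, smul_eq_mul, Pi.neg_apply]
    ring

lemma R_const {M : ℕ} {a w : Fin M → ℝ} (ha : IsSign a) (i : Fin M)
    (h : w = a ∨ w = -a) : R a i w = 0 := by
  rcases h with rfl | rfl
  · rw [R_apply, sign_mul ha]
    funext j
    simp
  · rw [R_apply]
    funext j
    simp only [Pi.add_apply, Pi.smul_apply, smul_eq_mul, Pi.neg_apply, Pi.zero_apply]
    have := sign_mul ha i
    rw [show -(-a i * a i) = 1 by linarith]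
    ring

lemma rr_le_aux {M : ℕ} (hM : 0 < M) {a w : Fin M → ℝ} (ha : IsSign a) (hw : IsSign w)
    (h1 : w ≠ a) : rr a w ≤ 1 - 2 / M := by
  have hM' : (0:ℝ) < M := by exact_mod_cast hM
  obtain ⟨i, hi⟩ : ∃ i, w i ≠ a i := by
    by_contra hcon
    push Not at hcon
    exact h1 (funext hcon)
  have hi' : a i * w i = -1 := by
    rcases ha i with h | h <;> rcases hw i with h' | h'
    · exact absurd (h'.trans h.symm) hi
    · rw [h, h']; norm_num
    · rw [h, h']; norm_num
    · exact absurd (h'.trans h.symm) hi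
  unfold rr
  rw [← Finset.add_sum_erase _ _ (Finset.mem_univ i), hi', div_le_iff₀ hM']
  have h2 : ∑ j ∈ Finset.univ.erase i, a j * w j ≤ ∑ j ∈ Finset.univ.erase i, (1:ℝ) := by
    refine Finset.sum_le_sum fun j _ => ?_
    have : |a j * w j| = 1 := by rw [abs_mul, sign_abs ha, sign_abs hw]; norm_num
    linarith [le_abs_self (a j * w j)]
  have h3 : ∑ j ∈ (Finset.univ : Finset (Fin M)).erase i, (1:ℝ) = M - 1 := by
    rw [Finset.sum_const, Finset.card_erase_of_mem (Finset.mem_univ i)]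
    simp [Nat.cast_sub (Nat.one_le_iff_ne_zero.2 hM.ne')]
  have h4 : (1 - 2 / (M:ℝ)) * M = M - 2 := by field_simp
  rw [h4]
  linarith

lemma rr_le {M : ℕ} (hM : 0 < M) {a w : Fin M → ℝ} (ha : IsSign a) (hw : IsSign w)
    (h : ¬ (w = a ∨ w = -a)) : |rr a w| ≤ 1 - 2 / M := by
  push Not at h
  rw [abs_le]
  constructor
  · have h2 : IsSign (-w) := by
      intro i
      rcases hw i with h' | h'
      · right; rw [Pi.neg_apply, h']
      · left; rw [Pi.neg_apply, h']; norm_num
    have h3 : -w ≠ a := by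
      intro h4
      exact h.2 (by rw [← h4, neg_neg])
    have := rr_le_aux hM ha h2 h3
    rw [rr_neg] at this
    linarith
  · exact rr_le_aux hM ha hw h.1

open Classical in
/-- The set of coordinates where `u` is not `± a`. -/
noncomputable def nc {k M : ℕ} (a u : Fin k → Fin M → ℝ) : Finset (Fin k) :=
  Finset.univ.filter (fun l => ¬ (u l = a l ∨ u l = -a l))

lemma mem_nc {k M : ℕ} (a u : Fin k → Fin M → ℝ) (l : Fin k) :
    l ∈ nc a u ↔ ¬ (u l = a l ∨ u l = -a l) := by
  unfold nc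
  rw [Finset.mem_filter]
  simp

lemma x_R {k M : ℕ} (x : F k M) (a u : Fin k → Fin M → ℝ) (l : Fin k) (i : Fin M)
    (w : Fin M → ℝ) :
    x (Function.update u l (R (a l) i w))
      = (1 / 2) * (x (Function.update u l w) - (w i * a l i) * x (Function.update u l (a l))) := by
  rw [R_apply, F.map_upd_smul, F.map_upd_add, F.map_upd_smul]
  ring

lemma isSign_update {k M : ℕ} {u : Fin k → Fin M → ℝ} (hu : ∀ l, IsSign (u l)) (l : Fin k)
    {w : Fin M → ℝ} (hw : IsSign w) (l' : Fin k) : IsSign (Function.update u l w l') := by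
  by_cases h : l' = l
  · subst h; simpa using hw
  · rw [Function.update_of_ne h]; exact hu l'

lemma x_R_le {k M : ℕ} (x : F k M) (hx : ‖x‖ ≤ 1) (a u : Fin k → Fin M → ℝ)
    (ha : ∀ l, IsSign (a l)) (hu : ∀ l, IsSign (u l)) (l : Fin k) (i : Fin M)
    {w : Fin M → ℝ} (hw : IsSign w) :
    |x (Function.update u l (R (a l) i w))| ≤ 1 := by
  rw [x_R, abs_mul]
  have h1 := (abs_le_norm x _ (isSign_update hu l hw)).trans hx
  have h2 := (abs_le_norm x _ (isSign_update hu l (ha l))).trans hx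
  have h3 : |w i * a l i * x (Function.update u l (a l))| ≤ 1 := by
    rw [abs_mul, abs_mul, sign_abs hw, sign_abs (ha l), one_mul, one_mul]
    exact h2
  have h4 := abs_sub (x (Function.update u l w)) (w i * a l i * x (Function.update u l (a l)))
  rw [abs_of_pos (by norm_num : (0:ℝ) < 1 / 2)]
  linarith

/-- First main estimate. -/
lemma est1 {k M : ℕ} (hM : 0 < M) (x : F k M) (hx : ‖x‖ ≤ 1) (a u : Fin k → Fin M → ℝ)
    (ha : ∀ l, IsSign (a l)) (hu : ∀ l, IsSign (u l)) (l : Fin k) (i : Fin M)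
    {θ : ℝ} (h0 : 0 ≤ θ) (h1 : θ ≤ 1) :
    |E x a θ l i u - (1 - θ) ^ ((nc a u).erase l).card
        * x (Function.update u l (R (a l) i (u l)))|
      ≤ (1 - 2 / M * θ) ^ ((nc a u).erase l).card - (1 - θ) ^ ((nc a u).erase l).card := by
  classical
  set N := (nc a u).erase l with hN
  set p : Fin k → ℝ := fun l' => if l' ∈ N then 1 - θ else 1 with hp
  set q : Fin k → ℝ := fun l' => if l' ∈ N then θ * rr (a l') (u l') else 0 with hq
  have key := expand x (Function.update u l (R (a l) i (u l))) (Function.update a l 0) p q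
    (by
      intro l'
      rw [hp]
      dsimp only
      split
      · linarith
      · norm_num)
    (by
      intro S
      by_cases hl : l ∈ S
      · have : S.piecewise (Function.update u l (R (a l) i (u l))) (Function.update a l 0)
            = Function.update (S.piecewise u a) l (R (a l) i (u l)) := by
          funext l'
          by_cases h : l' = l
          · subst h; simp [hl]
          · by_cases hS : l' ∈ S <;> simp [hS, h]
        rw [this]
        refine x_R_le x hx a (S.piecewise u a) ha ?_ l i (hu l)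
        intro l'
        by_cases hS : l' ∈ S
        · simpa [hS] using hu l'
        · simpa [hS] using ha l'
      · rw [F.map_zero_coord x _ l (by simp [hl])]
        norm_num)
  have e1 : E x a θ l i u = x (fun l' => p l' • Function.update u l (R (a l) i (u l)) l'
      + q l' • Function.update a l 0 l') := by
    rw [E_apply]
    congr 1
    funext l'
    by_cases h : l' = l
    · subst h
      simp [hp, hN]
    · rw [if_neg h, Function.update_of_ne h, Function.update_of_ne h]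
      by_cases hl' : l' ∈ N
      · simp only [hp, hq, hl', if_true]
        rw [T_apply]
      · simp only [hp, hq, hl', if_false]
        rw [one_smul, zero_smul, add_zero]
        refine T_const hM (ha l') θ ?_
        by_contra hcon
        exact hl' (by rw [hN, Finset.mem_erase, mem_nc]; exact ⟨h, hcon⟩)
  have e2 : ∏ l', p l' = (1 - θ) ^ N.card := by
    simp only [hp]
    rw [Finset.prod_ite_mem, Finset.univ_inter, Finset.prod_const]
  have e3 : ∏ l', (p l' + |q l'|) ≤ (1 - 2 / M * θ) ^ N.card := by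
    have : (1 - 2 / M * θ) ^ N.card = ∏ l', if l' ∈ N then (1 - 2 / M * θ) else 1 := by
      rw [Finset.prod_ite_mem, Finset.univ_inter, Finset.prod_const]
    rw [this]
    refine Finset.prod_le_prod (fun l' _ => ?_) (fun l' _ => ?_)
    · simp only [hp]
      split
      · have := abs_nonneg (q l'); linarith
      · have := abs_nonneg (q l'); linarith
    · by_cases hl' : l' ∈ N
      · simp only [hp, hq, hl', if_true]
        rw [abs_mul, abs_of_nonneg h0]
        have h5 := rr_le hM (ha l') (hu l') ((mem_nc a u l').1 (Finset.mem_of_mem_erase hl'))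
        nlinarith [mul_le_mul_of_nonneg_left h5 h0]
      · simp [hp, hq, hl']
  rw [e1, ← e2]
  linarith

lemma pow_aux {M : ℕ} (hM : 2 ≤ M) {θ : ℝ} (h0 : 0 ≤ θ) (h1 : θ ≤ 1) :
    0 ≤ 1 - 2 / (M:ℝ) * θ ∧ 2 / (M:ℝ) * θ ≤ θ := by
  have hM' : (2:ℝ) ≤ M := by exact_mod_cast hM
  have h2 : 2 / (M:ℝ) ≤ 1 := by rw [div_le_one (by linarith)]; exact hM'
  have h3 : 0 ≤ 2 / (M:ℝ) := by positivity
  constructor <;> nlinarith

/-- Second main estimate. -/
lemma est2 {k M : ℕ} (hM : 2 ≤ M) (x : F k M) (hx : ‖x‖ ≤ 1) (a u : Fin k → Fin M → ℝ)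
    (ha : ∀ l, IsSign (a l)) (hu : ∀ l, IsSign (u l)) (l : Fin k) (i : Fin M)
    {θ : ℝ} (h0 : 0 ≤ θ) (h1 : θ ≤ 1) :
    |x u - 2 * E x a θ l i u|
      ≤ 1 + 2 * ((1 - 2 / M * θ) ^ ((nc a u).erase l).card
          - (1 - θ) ^ ((nc a u).erase l).card) := by
  have h2 := est1 (by omega) x hx a u ha hu l i h0 h1
  set b := ((nc a u).erase l).card
  have h3 := x_R x a u l i (u l)
  rw [Function.update_eq_self] at h3
  set P := (1 - θ) ^ b with hP
  have hP0 : 0 ≤ P := pow_nonneg (by linarith) _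
  have hP1 : P ≤ 1 := pow_le_one₀ (by linarith) (by linarith)
  have h4 : |x u| ≤ 1 := (abs_le_norm x u hu).trans hx
  have h5 : |u l i * a l i * x (Function.update u l (a l))| ≤ 1 := by
    rw [abs_mul, abs_mul, sign_abs (hu l), sign_abs (ha l), one_mul, one_mul]
    exact (abs_le_norm x _ (isSign_update hu l (ha l))).trans hx
  rw [h3] at h2
  set Y := u l i * a l i * x (Function.update u l (a l))
  rw [abs_le] at h2 h4 h5 ⊢
  constructor <;> nlinarith

lemma est3 {k M : ℕ} (hM : 2 ≤ M) (x : F k M) (hx : ‖x‖ ≤ 1) (a u : Fin k → Fin M → ℝ)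
    (ha : ∀ l, IsSign (a l)) (hu : ∀ l, IsSign (u l)) (l : Fin k) (i : Fin M)
    {θ : ℝ} (h0 : 0 ≤ θ) (h1 : θ ≤ 1) :
    |E x a θ l i u| ≤ (1 - 2 / M * θ) ^ ((nc a u).erase l).card := by
  have h2 := est1 (by omega) x hx a u ha hu l i h0 h1
  set b := ((nc a u).erase l).card
  have h3 := x_R_le x hx a u ha hu l i (hu l)
  set P := (1 - θ) ^ b with hP
  have hP0 : 0 ≤ P := pow_nonneg (by linarith) _
  set Y := x (Function.update u l (R (a l) i (u l)))
  rw [abs_le] at h2 h3 ⊢
  constructor <;> nlinarith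

lemma est4 {k M : ℕ} (x : F k M) (a u : Fin k → Fin M → ℝ)
    (ha : ∀ l, IsSign (a l)) (l : Fin k) (i : Fin M)
    {θ : ℝ} (h : l ∉ nc a u) : E x a θ l i u = 0 := by
  rw [mem_nc, not_not] at h
  rw [E_apply]
  refine F.map_zero_coord x _ l ?_
  rw [if_pos rfl]
  exact R_const (ha l) i h

/-- The averaged element `D`. -/
noncomputable def D {k M : ℕ} (x : F k M) (a : Fin k → Fin M → ℝ) (L : ℕ) (l : Fin k)
    (i : Fin M) : F k M :=
  (1 / (L:ℝ)) • ∑ j ∈ Finset.range L, E x a ((2 / (M:ℝ)) ^ j) l i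

lemma D_apply {k M : ℕ} (x : F k M) (a : Fin k → Fin M → ℝ) (L : ℕ) (l : Fin k)
    (i : Fin M) (u : Fin k → Fin M → ℝ) :
    D x a L l i u = (1 / (L:ℝ)) * ∑ j ∈ Finset.range L, E x a ((2 / (M:ℝ)) ^ j) l i u := by
  unfold D
  rw [F.smul_apply, F.sum_apply]

lemma theta_bd {M : ℕ} (hM : 2 ≤ M) (j : ℕ) :
    0 < (2 / (M:ℝ)) ^ j ∧ (2 / (M:ℝ)) ^ j ≤ 1 := by
  have hM' : (2:ℝ) ≤ M := by exact_mod_cast hM
  have h2 : 2 / (M:ℝ) ≤ 1 := by rw [div_le_one (by linarith)]; exact hM'
  have h3 : 0 < 2 / (M:ℝ) := by positivity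
  exact ⟨pow_pos h3 _, pow_le_one₀ h3.le h2⟩

lemma normA {k M : ℕ} (hM : 2 ≤ M) (x : F k M) (hx : ‖x‖ ≤ 1) (a : Fin k → Fin M → ℝ)
    (ha : ∀ l, IsSign (a l)) {L : ℕ} (hL : 0 < L) (l : Fin k) (i : Fin M) :
    ‖x - (2:ℝ) • D x a L l i‖ ≤ 1 + 2 / L := by
  have hL' : (0:ℝ) < L := by exact_mod_cast hL
  rw [norm_le_iff _ (by positivity)]
  intro u hu
  rw [F.sub_apply, F.smul_apply, D_apply]
  set b := ((nc a u).erase l).card with hb
  have e1 : x u - 2 * (1 / (L:ℝ) * ∑ j ∈ Finset.range L, E x a ((2 / (M:ℝ)) ^ j) l i u)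
      = (1 / (L:ℝ)) * ∑ j ∈ Finset.range L, (x u - 2 * E x a ((2 / (M:ℝ)) ^ j) l i u) := by
    rw [Finset.sum_sub_distrib, ← Finset.mul_sum, Finset.sum_const, Finset.card_range,
      nsmul_eq_mul]
    field_simp
  rw [e1, abs_mul, abs_of_pos (by positivity)]
  have e2 : |∑ j ∈ Finset.range L, (x u - 2 * E x a ((2 / (M:ℝ)) ^ j) l i u)|
      ≤ ∑ j ∈ Finset.range L, (1 + 2 * ((1 - (2 / (M:ℝ)) ^ (j + 1)) ^ b
          - (1 - (2 / (M:ℝ)) ^ j) ^ b)) := by
    refine (Finset.abs_sum_le_sum_abs _ _).trans (Finset.sum_le_sum fun j _ => ?_)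
    have := est2 hM x hx a u ha hu l i (theta_bd hM j).1.le (theta_bd hM j).2
    rwa [← pow_succ'] at this
  rw [Finset.sum_add_distrib, ← Finset.mul_sum,
    Finset.sum_range_sub (fun j => (1 - (2 / (M:ℝ)) ^ j) ^ b), Finset.sum_const,
    Finset.card_range, nsmul_eq_mul, mul_one] at e2
  have e3 : (1 - (2 / (M:ℝ)) ^ L) ^ b ≤ 1 :=
    pow_le_one₀ (by linarith [(theta_bd hM L).2]) (by linarith [(theta_bd hM L).1])
  have e4 : 0 ≤ (1 - (2 / (M:ℝ)) ^ 0) ^ b := by
    apply pow_nonneg; simp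
  have e5 : |∑ j ∈ Finset.range L, (x u - 2 * E x a ((2 / (M:ℝ)) ^ j) l i u)| ≤ L + 2 := by
    linarith
  calc 1 / (L:ℝ) * |∑ j ∈ Finset.range L, (x u - 2 * E x a ((2 / (M:ℝ)) ^ j) l i u)|
      ≤ 1 / (L:ℝ) * (L + 2) := mul_le_mul_of_nonneg_left e5 (by positivity)
    _ = 1 + 2 / L := by field_simp

/-- The flipped base point. -/
noncomputable def tp {k M : ℕ} (a : Fin k → Fin M → ℝ) (l : Fin k) (i : Fin M) :
    Fin k → Fin M → ℝ :=
  Function.update a l (Function.update (a l) i (-a l i))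

lemma isSign_tp {k M : ℕ} {a : Fin k → Fin M → ℝ} (ha : ∀ l, IsSign (a l)) (l : Fin k)
    (i : Fin M) (l' : Fin k) : IsSign (tp a l i l') := by
  unfold tp
  refine isSign_update ha l ?_ l'
  intro j
  by_cases h : j = i
  · subst h
    rw [Function.update_self]
    rcases ha l j with h' | h' <;> rw [h'] <;> norm_num
  · rw [Function.update_of_ne h]
    exact ha l j

lemma E_tp {k M : ℕ} (hM : 0 < M) (x : F k M) (a : Fin k → Fin M → ℝ)
    (ha : ∀ l, IsSign (a l)) (θ : ℝ) (l : Fin k) (i : Fin M) :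
    E x a θ l i (tp a l i) = (1 / 2) * (x (tp a l i) + x a) := by
  have e1 : (fun l' => if l' = l then R (a l) i (tp a l i l) else T (a l') θ (tp a l i l'))
      = Function.update a l (R (a l) i (Function.update (a l) i (-a l i))) := by
    funext l'
    by_cases h : l' = l
    · subst h
      simp [tp]
    · rw [if_neg h, Function.update_of_ne h]
      unfold tp
      rw [Function.update_of_ne h]
      exact T_const hM (ha l') θ (Or.inl rfl)
  rw [E_apply, e1, x_R, Function.update_self, Function.update_eq_self]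
  have := sign_mul (ha l) i
  rw [show -a l i * a l i = -1 by linarith]
  unfold tp
  ring

lemma D_tp {k M : ℕ} (hM : 0 < M) (x : F k M) (a : Fin k → Fin M → ℝ)
    (ha : ∀ l, IsSign (a l)) {L : ℕ} (hL : 0 < L) (l : Fin k) (i : Fin M) :
    D x a L l i (tp a l i) = (1 / 2) * (x (tp a l i) + x a) := by
  have hL' : (0:ℝ) < L := by exact_mod_cast hL
  rw [D_apply, Finset.sum_congr rfl fun j _ => E_tp hM x a ha _ l i, Finset.sum_const,
    Finset.card_range, nsmul_eq_mul]
  field_simp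

/-- A good coordinate to flip. -/
lemma exists_i {k M : ℕ} (hM : 0 < M) (x : F k M) (a : Fin k → Fin M → ℝ) (l : Fin k)
    {ω : ℝ} (hω : ω * ω = 1) (hx : x a = ω) : ∃ i : Fin M, 1 - 2 / (M:ℝ) ≤ ω * x (tp a l i) := by
  have hM' : (0:ℝ) < M := by exact_mod_cast hM
  have e1 : ∀ i, x (tp a l i) = x a - 2 * x (Function.update a l (a l i • Pi.single i 1)) := by
    intro i
    have h1 : Function.update (a l) i (-a l i)
        = a l + (-2 : ℝ) • (a l i • (Pi.single i 1 : Fin M → ℝ)) := by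
      funext j
      by_cases h : j = i
      · subst h
        simp
        ring
      · simp [h]
    unfold tp
    rw [h1, F.map_upd_add, F.map_upd_smul, Function.update_eq_self]
    ring
  have e2 : ∑ i, x (Function.update a l (a l i • (Pi.single i 1 : Fin M → ℝ))) = x a := by
    have h2 := MultilinearMap.map_update_sum
      (x : MultilinearMap ℝ (fun _ : Fin k => Fin M → ℝ) ℝ) Finset.univ l
      (fun i => a l i • (Pi.single i 1 : Fin M → ℝ)) a
    have h3 : ∑ i, a l i • (Pi.single i 1 : Fin M → ℝ) = a l := by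
      funext j
      rw [Finset.sum_apply, Finset.sum_eq_single j]
      · simp
      · intro b _ hb
        simp [hb.symm]
      · simp
    rw [h3, Function.update_eq_self] at h2
    exact h2.symm
  by_contra hcon
  push Not at hcon
  have h3 : ∀ i, 1 / (M:ℝ) < ω * x (Function.update a l (a l i • (Pi.single i 1 : Fin M → ℝ))) := by
    intro i
    have h4 := hcon i
    rw [e1, hx, mul_sub, hω] at h4
    have : 2 / (M:ℝ) = 2 * (1 / M) := by ring
    linarith
  have hne : (Finset.univ : Finset (Fin M)).Nonempty := ⟨⟨0, hM⟩, Finset.mem_univ _⟩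
  have h5 := Finset.sum_lt_sum_of_nonempty hne fun i _ => h3 i
  rw [← Finset.mul_sum, e2, hx, hω, Finset.sum_const, Finset.card_univ, Fintype.card_fin,
    nsmul_eq_mul] at h5
  have : (M:ℝ) * (1 / M) = 1 := by field_simp
  linarith

lemma bern {q : ℝ} (h0 : 0 < q) (h1 : q ≤ 1) (b : ℕ) (hb : 0 < b) :
    (b:ℝ) * (1 - q) ^ (b - 1) ≤ 1 / q := by
  obtain ⟨n, rfl⟩ : ∃ n, b = n + 1 := ⟨b - 1, by omega⟩
  rw [Nat.add_sub_cancel, le_div_iff₀ h0]
  have h2 : 1 + (n:ℝ) * q ≤ (1 + q) ^ n := one_add_mul_le_pow (by linarith) n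
  have h3 : 0 ≤ (1 - q) ^ n := pow_nonneg (by linarith) n
  have h4 : (1 + q) ^ n * (1 - q) ^ n ≤ 1 := by
    rw [← mul_pow]
    exact pow_le_one₀ (by nlinarith) (by nlinarith)
  have h5 : (((n + 1 : ℕ) : ℝ)) * q ≤ 1 + n * q := by push_cast; linarith
  calc ((n + 1 : ℕ) : ℝ) * (1 - q) ^ n * q = (((n + 1 : ℕ) : ℝ) * q) * (1 - q) ^ n := by ring
    _ ≤ (1 + n * q) * (1 - q) ^ n := mul_le_mul_of_nonneg_right h5 h3
    _ ≤ (1 + q) ^ n * (1 - q) ^ n := mul_le_mul_of_nonneg_right h2 h3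
    _ ≤ 1 := h4

lemma D_abs {k M : ℕ} (hM : 2 ≤ M) (x : F k M) (hx : ‖x‖ ≤ 1) (a u : Fin k → Fin M → ℝ)
    (ha : ∀ l, IsSign (a l)) (hu : ∀ l, IsSign (u l)) {L : ℕ} (hL : 0 < L) (l : Fin k)
    (i : Fin M) (hl : l ∈ nc a u) :
    |D x a L l i u| ≤ (1 - (2 / (M:ℝ)) ^ L) ^ ((nc a u).card - 1) := by
  have hL' : (0:ℝ) < L := by exact_mod_cast hL
  rw [D_apply, abs_mul, abs_of_pos (by positivity)]
  have e2 : |∑ j ∈ Finset.range L, E x a ((2 / (M:ℝ)) ^ j) l i u|
      ≤ ∑ j ∈ Finset.range L, (1 - (2 / (M:ℝ)) ^ L) ^ ((nc a u).card - 1) := by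
    refine (Finset.abs_sum_le_sum_abs _ _).trans (Finset.sum_le_sum fun j hj => ?_)
    have h3 := est3 hM x hx a u ha hu l i (theta_bd hM j).1.le (theta_bd hM j).2
    rw [Finset.card_erase_of_mem hl, ← pow_succ'] at h3
    refine h3.trans (pow_le_pow_left₀ (by linarith [(theta_bd hM (j + 1)).2]) ?_ _)
    have h4 : (2 / (M:ℝ)) ^ L ≤ (2 / (M:ℝ)) ^ (j + 1) := by
      have h5 := theta_bd hM 1
      rw [pow_one] at h5
      exact pow_le_pow_of_le_one h5.1.le h5.2 (by have := Finset.mem_range.1 hj; omega)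
    linarith
  rw [Finset.sum_const, Finset.card_range, nsmul_eq_mul] at e2
  calc 1 / (L:ℝ) * |∑ j ∈ Finset.range L, E x a ((2 / (M:ℝ)) ^ j) l i u|
      ≤ 1 / (L:ℝ) * (L * (1 - (2 / (M:ℝ)) ^ L) ^ ((nc a u).card - 1)) :=
        mul_le_mul_of_nonneg_left e2 (by positivity)
    _ = _ := by field_simp

/-- The signed sum of the `D`'s is small. -/
lemma normC {k M : ℕ} (hM : 2 ≤ M) (x : F k M) (hx : ‖x‖ ≤ 1) (a : Fin k → Fin M → ℝ)
    (ha : ∀ l, IsSign (a l)) {L : ℕ} (hL : 0 < L) (i : Fin k → Fin M) (σ : Fin k → ℝ)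
    (hσ : ∀ l, |σ l| ≤ 1) :
    ‖(2 / (M:ℝ)) ^ L • ∑ l, σ l • D x a L l (i l)‖ ≤ 1 := by
  rw [norm_le_iff _ zero_le_one]
  intro u hu
  rw [F.smul_apply, F.sum_apply, abs_mul, abs_of_pos (theta_bd hM L).1]
  have hq := theta_bd hM L
  set q := (2 / (M:ℝ)) ^ L with hqd
  have e1 : |∑ l, (σ l • D x a L l (i l)) u| ≤ ∑ l, |D x a L l (i l) u| := by
    refine (Finset.abs_sum_le_sum_abs _ _).trans (Finset.sum_le_sum fun l _ => ?_)
    rw [F.smul_apply, abs_mul]
    exact mul_le_of_le_one_left (abs_nonneg _) (hσ l)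
  have e2 : ∑ l, |D x a L l (i l) u| = ∑ l ∈ nc a u, |D x a L l (i l) u| := by
    symm
    apply Finset.sum_subset (Finset.subset_univ _)
    intro l _ hl
    rw [D_apply, Finset.sum_eq_zero fun j _ => est4 x a u ha l (i l) hl]
    simp
  have e3 : ∑ l ∈ nc a u, |D x a L l (i l) u|
      ≤ ∑ l ∈ nc a u, (1 - q) ^ ((nc a u).card - 1) :=
    Finset.sum_le_sum fun l hl => D_abs hM x hx a u ha hu hL l (i l) hl
  rw [Finset.sum_const, nsmul_eq_mul] at e3
  have e4 : ((nc a u).card : ℝ) * (1 - q) ^ ((nc a u).card - 1) ≤ 1 / q := by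
    rcases Nat.eq_zero_or_pos (nc a u).card with h | h
    · rw [h]; simp; exact hq.1.le
    · exact bern hq.1 hq.2 _ h
  calc q * |∑ l, (σ l • D x a L l (i l)) u| ≤ q * (1 / q) := by
        apply mul_le_mul_of_nonneg_left _ hq.1.le
        linarith
    _ = 1 := by
        have := hq.1.ne'
        field_simp

end Pool.Agent.Helper68_Proj2
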