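import Mathlib

/-!
# The space of `k`-linear forms on `(ℝ^M)^k` with the sup norm over sign vectors
-/

set_option autoImplicit false

namespace Pool.Agent.Helper68_Proj2

open Module Finset

/-- The space of `k`-linear forms on `(ℝ^M)^k`. -/
def F (k M : ℕ) : Type := MultilinearMap ℝ (fun _ : Fin k => Fin M → ℝ) ℝ

instance (k M : ℕ) : AddCommGroup (F k M) :=
  inferInstanceAs (AddCommGroup (MultilinearMap ℝ (fun _ : Fin k => Fin M → ℝ) ℝ))

instance (k M : ℕ) : Module ℝ (F k M) :=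
  inferInstanceAs (Module ℝ (MultilinearMap ℝ (fun _ : Fin k => Fin M → ℝ) ℝ))

instance (k M : ℕ) : FunLike (F k M) (Fin k → Fin M → ℝ) ℝ :=
  inferInstanceAs (FunLike (MultilinearMap ℝ (fun _ : Fin k => Fin M → ℝ) ℝ) _ _)

/-- A sign. -/
def sg (b : Bool) : ℝ := if b then 1 else -1

/-- The sign vector of a family of booleans. -/
def sgv {k M : ℕ} (s : Fin k → Fin M → Bool) : Fin k → Fin M → ℝ := fun l i => sg (s l i)

@[simp] lemma F.add_apply {k M : ℕ} (x y : F k M) (u : Fin k → Fin M → ℝ) :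
    (x + y) u = x u + y u := rfl

@[simp] lemma F.sub_apply {k M : ℕ} (x y : F k M) (u : Fin k → Fin M → ℝ) :
    (x - y) u = x u - y u := rfl

@[simp] lemma F.smul_apply {k M : ℕ} (c : ℝ) (x : F k M) (u : Fin k → Fin M → ℝ) :
    (c • x) u = c * x u := rfl

@[simp] lemma F.zero_apply {k M : ℕ} (u : Fin k → Fin M → ℝ) :
    (0 : F k M) u = 0 := rfl

/-- Evaluation at a point, as a linear map. -/
def F.ev {k M : ℕ} (u : Fin k → Fin M → ℝ) : F k M →ₗ[ℝ] ℝ where
  toFun x := x u
  map_add' _ _ := rfl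
  map_smul' _ _ := rfl

@[simp] lemma F.ev_apply {k M : ℕ} (u : Fin k → Fin M → ℝ) (x : F k M) :
    F.ev u x = x u := rfl

lemma F.sum_apply {k M : ℕ} {ι : Type} (s : Finset ι) (g : ι → F k M)
    (u : Fin k → Fin M → ℝ) : (∑ i ∈ s, g i) u = ∑ i ∈ s, g i u := by
  exact map_sum (F.ev u) g s

/-- Restriction to sign vectors. -/
def res (k M : ℕ) : F k M →ₗ[ℝ] ((Fin k → Fin M → Bool) → ℝ) where
  toFun x s := x (sgv s)
  map_add' _ _ := rfl
  map_smul' _ _ := rfl

/-- A vector is a sign vector. -/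
def IsSign {M : ℕ} (w : Fin M → ℝ) : Prop := ∀ i, w i = 1 ∨ w i = -1

lemma isSign_sgv {k M : ℕ} (s : Fin k → Fin M → Bool) (l : Fin k) : IsSign (sgv s l) := by
  intro i
  unfold sgv sg
  split <;> simp

lemma exists_sgv {k M : ℕ} (u : Fin k → Fin M → ℝ) (hu : ∀ l, IsSign (u l)) :
    ∃ s, sgv s = u := by
  refine ⟨fun l i => decide (u l i = 1), ?_⟩
  funext l i
  unfold sgv sg
  rcases hu l i with h | h
  · simp [h]
  · have : ¬ (u l i = 1) := by rw [h]; norm_num
    simp [h]
    norm_num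

/-- A linear functional vanishing on sign vectors is zero. -/
lemma lin_zero {M : ℕ} (φ : (Fin M → ℝ) →ₗ[ℝ] ℝ) (h : ∀ w, IsSign w → φ w = 0) : φ = 0 := by
  apply (Pi.basisFun ℝ (Fin M)).ext
  intro i
  rw [Pi.basisFun_apply, LinearMap.zero_apply]
  have h1 := h (fun _ => 1) (fun _ => Or.inl rfl)
  have h2 := h (fun j => if j = i then -1 else 1) (fun j => by
    by_cases hj : j = i
    · right; simp [hj]
    · left; simp [hj])
  have h3 : (Pi.single i 1 : Fin M → ℝ)
      = (1 / 2 : ℝ) • ((fun _ => (1:ℝ)) - fun j => if j = i then (-1:ℝ) else 1) := by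
    funext j
    by_cases hj : j = i
    · subst hj
      simp
      norm_num
    · simp [hj]
  rw [h3, map_smul, map_sub, h1, h2]
  simp

lemma vanish {k M : ℕ} (x : F k M) (h : ∀ s, x (sgv s) = 0) (S : Finset (Fin k)) :
    ∀ u : Fin k → Fin M → ℝ, (∀ l, l ∉ S → IsSign (u l)) → x u = 0 := by
  classical
  induction S using Finset.induction_on with
  | empty =>
    intro u hu
    obtain ⟨s, rfl⟩ := exists_sgv u (fun l => hu l (by simp))
    exact h s
  | insert l S hl ih =>
    intro u hu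
    have key : (MultilinearMap.toLinearMap (x : MultilinearMap ℝ (fun _ : Fin k => Fin M → ℝ) ℝ)
        u l) = 0 := by
      apply lin_zero
      intro w hw
      show x (Function.update u l w) = 0
      apply ih
      intro l' hl'
      by_cases h1 : l' = l
      · subst h1
        simpa using hw
      · rw [Function.update_of_ne h1]
        exact hu l' (by simp [h1, hl'])
    have h2 := LinearMap.congr_fun key (u l)
    have h3 : x (Function.update u l (u l)) = 0 := h2
    rwa [Function.update_eq_self] at h3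

lemma res_injective (k M : ℕ) : Function.Injective (res k M) := by
  rw [← LinearMap.ker_eq_bot, LinearMap.ker_eq_bot']
  intro x hx
  have h : ∀ s, x (sgv s) = 0 := fun s => congrFun hx s
  apply DFunLike.ext
  intro u
  exact vanish x h Finset.univ u (fun l hl => absurd (Finset.mem_univ l) hl)

noncomputable instance (k M : ℕ) : NormedAddCommGroup (F k M) :=
  NormedAddCommGroup.induced (F k M) ((Fin k → Fin M → Bool) → ℝ) (res k M) (res_injective k M)

noncomputable instance (k M : ℕ) : NormedSpace ℝ (F k M) :=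
  NormedSpace.induced ℝ (F k M) ((Fin k → Fin M → Bool) → ℝ) (res k M)

lemma norm_def {k M : ℕ} (x : F k M) : ‖x‖ = ‖res k M x‖ := rfl

lemma norm_le_iff {k M : ℕ} (x : F k M) {r : ℝ} (hr : 0 ≤ r) :
    ‖x‖ ≤ r ↔ ∀ u, (∀ l, IsSign (u l)) → |x u| ≤ r := by
  rw [norm_def, pi_norm_le_iff_of_nonneg hr]
  constructor
  · intro h u hu
    obtain ⟨s, rfl⟩ := exists_sgv u hu
    exact h s
  · intro h s
    exact h (sgv s) (isSign_sgv s)

lemma abs_le_norm {k M : ℕ} (x : F k M) (u : Fin k → Fin M → ℝ) (hu : ∀ l, IsSign (u l)) :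
    |x u| ≤ ‖x‖ := (norm_le_iff x (norm_nonneg x)).1 le_rfl u hu

lemma exists_norm_eq {k M : ℕ} (x : F k M) :
    ∃ u, (∀ l, IsSign (u l)) ∧ |x u| = ‖x‖ := by
  classical
  obtain ⟨s, hs⟩ := Finite.exists_max (fun s => ‖res k M x s‖)
  refine ⟨sgv s, isSign_sgv s, le_antisymm (abs_le_norm x _ (isSign_sgv s)) ?_⟩
  rw [norm_le_iff x (abs_nonneg _)]
  intro u hu
  obtain ⟨s', rfl⟩ := exists_sgv u hu
  exact hs s'

instance (k M : ℕ) : FiniteDimensional ℝ (F k M) :=
  inferInstanceAs (FiniteDimensional ℝ (MultilinearMap ℝ (fun _ : Fin k => Fin M → ℝ) ℝ))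

lemma finrank_F (k M : ℕ) : finrank ℝ (F k M) = M ^ k := by
  have b := Basis.multilinearMap (R := ℝ) (fun _ : Fin k => Pi.basisFun ℝ (Fin M))
    (Basis.singleton Unit ℝ)
  have h := Module.finrank_eq_card_basis b
  have h2 : finrank ℝ (F k M)
      = finrank ℝ (MultilinearMap ℝ (fun _ : Fin k => Fin M → ℝ) ℝ) := rfl
  rw [h2, h]
  simp

end Pool.Agent.Helper68_Proj2
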