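import Pool.Agent.Helper68_Proj2.Good
import Pool.Agent.Helper18_Proj.Defs

/-!
# Sums of good spaces, hyperplane projections, all dimensions
-/

set_option autoImplicit false

namespace Pool.Agent.Helper68_Proj2

open Module Finset

lemma sum_aux {ι : Type} [Fintype ι] (c : ℝ) (g A B w : ι → ℝ) (hg : ∀ i, 0 ≤ g i)
    (hc : 0 < c) (hG : 0 < ∑ i, g i) (hA : ∀ i, 0 ≤ A i) (hB : ∀ i, 0 ≤ B i)
    (hAB : ∀ i, c * g i ≤ A i * B i) (hw : ∀ i, w i = √(g i / ∑ i, g i)) :
    c * ∑ i, g i ≤ (∑ i, w i * A i) * (∑ i, w i * B i) := by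
  set G := ∑ i, g i with hGd
  have hw0 : ∀ i, 0 ≤ w i := fun i => by rw [hw]; exact Real.sqrt_nonneg _
  have h1 := Real.sum_sqrt_mul_sqrt_le (s := Finset.univ) (f := fun i => w i * A i)
    (g := fun i => w i * B i) (fun i => mul_nonneg (hw0 i) (hA i))
    (fun i => mul_nonneg (hw0 i) (hB i))
  have h2 : ∀ i, √c * g i / √G ≤ √(w i * A i) * √(w i * B i) := by
    intro i
    have e1 : √(w i * A i) * √(w i * B i) = w i * √(A i * B i) := by
      rw [← Real.sqrt_mul (mul_nonneg (hw0 i) (hA i)),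
        show w i * A i * (w i * B i) = (w i) ^ 2 * (A i * B i) by ring,
        Real.sqrt_mul (sq_nonneg _), Real.sqrt_sq (hw0 i)]
    rw [e1]
    have e2 : √(c * g i) ≤ √(A i * B i) := Real.sqrt_le_sqrt (hAB i)
    calc √c * g i / √G = w i * √(c * g i) := by
          rw [hw, Real.sqrt_div (hg i), Real.sqrt_mul hc.le]
          have := Real.mul_self_sqrt (hg i)
          field_simp
          rw [pow_two, this]
      _ ≤ w i * √(A i * B i) := mul_le_mul_of_nonneg_left e2 (hw0 i)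
  have h3 : √c * √G ≤ √(∑ i, w i * A i) * √(∑ i, w i * B i) := by
    refine le_trans ?_ h1
    have h4 : √c * √G = ∑ i, √c * g i / √G := by
      rw [← Finset.sum_div, ← Finset.mul_sum, ← hGd]
      have h5 : √G ≠ 0 := (Real.sqrt_pos.2 hG).ne'
      rw [eq_div_iff h5, mul_assoc, Real.mul_self_sqrt hG.le]
    rw [h4]
    exact Finset.sum_le_sum fun i _ => h2 i
  have hA' : 0 ≤ ∑ i, w i * A i := Finset.sum_nonneg fun i _ => mul_nonneg (hw0 i) (hA i)
  rw [← Real.sqrt_mul hc.le, ← Real.sqrt_mul hA'] at h3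
  rwa [Real.sqrt_le_sqrt_iff (mul_nonneg hA' (Finset.sum_nonneg fun i _ =>
    mul_nonneg (hw0 i) (hB i)))] at h3

theorem good_pi {ι : Type} [Fintype ι] (Z : ι → Type) [∀ i, NormedAddCommGroup (Z i)]
    [∀ i, NormedSpace ℝ (Z i)] {c : ℝ} (hc : 0 < c) (h : ∀ i, Good c (Z i)) :
    Good c (PiLp 2 Z) := by
  classical
  intro x f hfx
  -- the components of `f`
  set F' : (∀ i, Z i) →ₗ[ℝ] ℝ := f ∘ₗ (WithLp.linearEquiv 2 ℝ (∀ i, Z i)).symm.toLinearMap
    with hF'
  set fi : ∀ i, Z i →ₗ[ℝ] ℝ := fun i => F' ∘ₗ LinearMap.single ℝ Z i with hfi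
  have hf : ∀ z : PiLp 2 Z, f z = ∑ i, fi i (z i) := by
    intro z
    have h1 : f z = F' (WithLp.ofLp z) := rfl
    rw [h1]
    conv_lhs => rw [← Finset.univ_sum_single (WithLp.ofLp z)]
    rw [map_sum]
    rfl
  -- positive parts
  set g : ι → ℝ := fun i => max (fi i (x i)) 0 with hg
  have hg0 : ∀ i, 0 ≤ g i := fun i => le_max_right _ _
  set G := ∑ i, g i with hG
  have hGf : f x ≤ G := by
    rw [hf]
    exact Finset.sum_le_sum fun i _ => le_max_left _ _
  have hGpos : 0 < G := by linarith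
  have hex : ∀ i, ∃ (v : Z i) (φ : Z i →ₗ[ℝ] ℝ), ‖v‖ ≤ 1 ∧ (∀ z, |φ z| ≤ ‖z‖) ∧
      (0 < g i → c ≤ φ v) ∧ fi i v ≤ 0 ∧ 0 ≤ φ (x i) ∧ c * g i ≤ -(fi i v * φ (x i)) := by
    intro i
    by_cases hi : 0 < fi i (x i)
    · obtain ⟨v, φ, h1, h2, h3, h4, h5, h6⟩ := h i (x i) (fi i) hi
      refine ⟨v, φ, h1, h2, fun _ => h3, h4, h5, ?_⟩
      have : g i = fi i (x i) := max_eq_left hi.le
      rwa [this]
    · have hgi : g i = 0 := max_eq_right (not_lt.1 hi)
      refine ⟨0, 0, by simp, by simp, fun h' => absurd h' (by rw [hgi]; exact lt_irrefl _),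
        by simp, by simp, by simp [hgi]⟩
  choose v φ h1 h2 h3 h4 h5 h6 using hex
  set w : ι → ℝ := fun i => √(g i / G) with hw
  have hw0 : ∀ i, 0 ≤ w i := fun i => Real.sqrt_nonneg _
  have hw2 : ∀ i, w i ^ 2 = g i / G := fun i => Real.sq_sqrt (div_nonneg (hg0 i) hGpos.le)
  have hwsum : ∑ i, w i ^ 2 = 1 := by
    simp only [hw2]
    rw [← Finset.sum_div, ← hG, div_self hGpos.ne']
  refine ⟨WithLp.toLp 2 (fun i => w i • v i),
    { toFun := fun z => ∑ i, w i * φ i (z i)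
      map_add' := by
        intro z z'
        rw [← Finset.sum_add_distrib]
        refine Finset.sum_congr rfl fun i _ => ?_
        rw [PiLp.add_apply, map_add]; ring
      map_smul' := by
        intro r z
        rw [RingHom.id_apply, smul_eq_mul, Finset.mul_sum]
        refine Finset.sum_congr rfl fun i _ => ?_
        rw [PiLp.smul_apply, map_smul, smul_eq_mul]; ring }, ?_, ?_, ?_, ?_, ?_, ?_⟩
  · rw [← sq_le_one_iff₀ (norm_nonneg _), PiLp.norm_sq_eq_of_L2]
    calc ∑ i, ‖w i • v i‖ ^ 2 ≤ ∑ i, w i ^ 2 := by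
          refine Finset.sum_le_sum fun i _ => ?_
          rw [norm_smul, Real.norm_of_nonneg (hw0 i), mul_pow]
          exact mul_le_of_le_one_right (sq_nonneg _) (pow_le_one₀ (norm_nonneg _) (h1 i))
      _ = 1 := hwsum
  · intro z
    show |∑ i, w i * φ i (z i)| ≤ ‖z‖
    calc |∑ i, w i * φ i (z i)| ≤ ∑ i, w i * ‖z i‖ := by
          refine (Finset.abs_sum_le_sum_abs _ _).trans (Finset.sum_le_sum fun i _ => ?_)
          rw [abs_mul, abs_of_nonneg (hw0 i)]
          exact mul_le_mul_of_nonneg_left (h2 i _) (hw0 i)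
      _ ≤ √(∑ i, w i ^ 2) * √(∑ i, ‖z i‖ ^ 2) := Real.sum_mul_le_sqrt_mul_sqrt _ _ _
      _ = ‖z‖ := by rw [hwsum, Real.sqrt_one, one_mul, PiLp.norm_eq_of_L2]
  · show c ≤ ∑ i, w i * φ i (w i • v i)
    calc c = ∑ i, c * w i ^ 2 := by rw [← Finset.mul_sum, hwsum, mul_one]
      _ ≤ ∑ i, w i * φ i (w i • v i) := by
          refine Finset.sum_le_sum fun i _ => ?_
          rw [map_smul, smul_eq_mul, show w i * (w i * φ i (v i)) = φ i (v i) * w i ^ 2 by ring]
          rcases (hg0 i).lt_or_eq with hi | hi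
          · exact mul_le_mul_of_nonneg_right (h3 i hi) (sq_nonneg _)
          · rw [hw2, ← hi]; simp
  · rw [hf]
    refine Finset.sum_nonpos fun i _ => ?_
    show fi i (w i • v i) ≤ 0
    rw [map_smul, smul_eq_mul]
    exact mul_nonpos_of_nonneg_of_nonpos (hw0 i) (h4 i)
  · show 0 ≤ ∑ i, w i * φ i (x i)
    exact Finset.sum_nonneg fun i _ => mul_nonneg (hw0 i) (h5 i)
  · have h7 := sum_aux c g (fun i => -(fi i (v i))) (fun i => φ i (x i)) w hg0 hc hGpos
      (fun i => by have := h4 i; linarith) h5 (fun i => by have := h6 i; linarith)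
      (fun i => rfl)
    have h8 : f (WithLp.toLp 2 (fun i => w i • v i)) = -∑ i, w i * -(fi i (v i)) := by
      rw [hf, ← Finset.sum_neg_distrib]
      refine Finset.sum_congr rfl fun i _ => ?_
      show fi i (w i • v i) = _
      rw [map_smul, smul_eq_mul]; ring
    show c * f x ≤ -(f (WithLp.toLp 2 (fun i => w i • v i)) * ∑ i, w i * φ i (x i))
    rw [h8]
    calc c * f x ≤ c * G := mul_le_mul_of_nonneg_left hGf hc.le
      _ ≤ _ := h7
      _ = _ := by ring

/-- A projection onto a hyperplane is `x ↦ x - f x • v` with `f v = 1`. -/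
lemma rank_one {X : Type} [NormedAddCommGroup X] [NormedSpace ℝ X] [FiniteDimensional ℝ X]
    (Y : Submodule ℝ X) (hY : finrank ℝ Y + 1 = finrank ℝ X) (P : X →L[ℝ] X)
    (h1 : LinearMap.range (P : X →ₗ[ℝ] X) = Y) (h2 : ∀ y ∈ Y, P y = y) :
    ∃ (v : X) (f : X →ₗ[ℝ] ℝ), f v = 1 ∧ ∀ x, P x = x - f x • v := by
  have hk : finrank ℝ (LinearMap.ker (P : X →ₗ[ℝ] X)) = 1 := by
    have := LinearMap.finrank_range_add_finrank_ker (P : X →ₗ[ℝ] X)
    rw [h1] at this
    omega
  obtain ⟨w, hw, hspan⟩ := finrank_eq_one_iff'.1 hk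
  have hPw : P (w : X) = 0 := by
    have := w.2
    rwa [LinearMap.mem_ker] at this
  have hw' : (w : X) ≠ 0 := fun h => hw (Subtype.ext h)
  have hsub : ∀ x : X, x - P x ∈ LinearMap.ker (P : X →ₗ[ℝ] X) := by
    intro x
    have hx : P x ∈ Y := by rw [← h1]; exact ⟨x, rfl⟩
    rw [LinearMap.mem_ker]
    show P (x - P x) = 0
    rw [map_sub, h2 _ hx, sub_self]
  -- the coefficient functional on the kernel
  let e : ℝ ≃ₗ[ℝ] LinearMap.ker (P : X →ₗ[ℝ] X) :=
    LinearEquiv.ofBijective (LinearMap.toSpanSingleton ℝ _ w) (by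
      constructor
      · rw [← LinearMap.ker_eq_bot, LinearMap.ker_eq_bot']
        intro c hc
        rw [LinearMap.toSpanSingleton_apply] at hc
        rcases smul_eq_zero.1 hc with h | h
        · exact h
        · exact absurd h hw
      · intro y
        obtain ⟨c, hc⟩ := hspan y
        exact ⟨c, by rw [LinearMap.toSpanSingleton_apply]; exact hc⟩)
  have he : ∀ c : ℝ, ((e c : LinearMap.ker (P : X →ₗ[ℝ] X)) : X) = c • (w : X) := by
    intro c; rfl
  let R : X →ₗ[ℝ] LinearMap.ker (P : X →ₗ[ℝ] X) :=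
    LinearMap.codRestrict _ (LinearMap.id - (P : X →ₗ[ℝ] X)) hsub
  have hR : ∀ x, ((R x : LinearMap.ker (P : X →ₗ[ℝ] X)) : X) = x - P x := fun x => rfl
  refine ⟨w, e.symm.toLinearMap ∘ₗ R, ?_, ?_⟩
  · have : R (w : X) = w := by
      apply Subtype.ext
      rw [hR, hPw, sub_zero]
    rw [LinearMap.comp_apply, this]
    show e.symm w = 1
    rw [LinearEquiv.symm_apply_eq]
    apply Subtype.ext
    rw [he, one_smul]
  · intro x
    have : (e (e.symm (R x)) : X) = x - P x := by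
      rw [LinearEquiv.apply_symm_apply, hR]
    rw [he] at this
    show P x = x - (e.symm (R x)) • (w : X)
    rw [this]; abel

open Pool.Agent.Helper18_Proj in
/-- If `Z` is good then the projections onto its hyperplanes have large norm. -/
theorem two_mul_le_norm {c : ℝ} {Z : Type} [NormedAddCommGroup Z] [NormedSpace ℝ Z]
    [FiniteDimensional ℝ Z] (h : Good c Z) (Y : Submodule ℝ Z)
    (hY : finrank ℝ Y + 1 = finrank ℝ Z) (P : Z →L[ℝ] Z) (hP : IsProj Y P) : 2 * c ≤ ‖P‖ := by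
  obtain ⟨x, f, hfx, hPx⟩ := rank_one Y hY P hP.1 hP.2
  obtain ⟨v, φ, h1, h2, h3, h4, h5, h6⟩ := h x f (by rw [hfx]; norm_num)
  have e1 : φ (P v) = φ v - f v * φ x := by
    rw [hPx, map_sub, map_smul, smul_eq_mul]
  have e2 : |φ (P v)| ≤ ‖P‖ :=
    (h2 _).trans ((P.le_opNorm v).trans (mul_le_of_le_one_right (norm_nonneg _) h1))
  rw [hfx, mul_one] at h6
  have e3 := le_abs_self (φ (P v))
  rw [e1] at e3 e2
  linarith

open Pool.Agent.Helper18_Proj in
theorem rho_ge_of_good {c : ℝ} (n : ℕ) (Z : Type) [i1 : NormedAddCommGroup Z]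
    [i2 : NormedSpace ℝ Z] [i3 : FiniteDimensional ℝ Z] (hn : finrank ℝ Z = n)
    (h : Good c Z) : ENNReal.ofReal (2 * c) ≤ rho n := by
  have h1 : ENNReal.ofReal (2 * c) ≤ minHyperplane Z := by
    unfold minHyperplane relProjConst
    refine le_iInf fun Y => le_iInf fun hY => le_iInf fun P => le_iInf fun hP => ?_
    exact ENNReal.ofReal_le_ofReal (two_mul_le_norm h Y hY P hP)
  refine h1.trans ?_
  unfold rho
  exact le_iSup_of_le Z (le_iSup_of_le i1 (le_iSup_of_le i2 (le_iSup_of_le i3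
    (le_iSup_of_le hn le_rfl))))

/-- Every large number is a combination of two coprime numbers. -/
lemma semigroup {p q : ℕ} (hpq : Nat.Coprime p q) (hp : 0 < p) {n : ℕ}
    (hn : p * q ≤ n) : ∃ α β : ℕ, n = α * p + β * q := by
  have hinv : IsUnit (q : ZMod p) := (ZMod.isUnit_iff_coprime q p).2 hpq.symm
  obtain ⟨u, hu⟩ := hinv
  have : NeZero p := ⟨hp.ne'⟩
  set b : ZMod p := (n : ZMod p) * (↑u⁻¹ : ZMod p) with hb
  have hbq : (b.val : ZMod p) * q = n := by
    rw [ZMod.natCast_zmod_val, hb, ← hu, mul_assoc, Units.inv_mul, mul_one]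
  have hlt : b.val < p := ZMod.val_lt b
  have hle : b.val * q ≤ n := (Nat.mul_le_mul_right q hlt.le).trans hn
  have hmod : ((n - b.val * q : ℕ) : ZMod p) = 0 := by
    rw [Nat.cast_sub hle, Nat.cast_mul, hbq, sub_self]
  obtain ⟨α, hα⟩ := (ZMod.natCast_eq_zero_iff _ _).1 hmod
  refine ⟨α, b.val, ?_⟩
  rw [mul_comm α p, ← hα]
  omega

open Pool.Agent.Helper18_Proj in
/-- The bound for a given dimension which is a combination of `M ^ k` and `(M + 1) ^ k`. -/
theorem rho_ge_sum {c : ℝ} (hc : 0 < c) {k M : ℕ} (hM : 0 < M)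
    (h1 : Good c (F k M)) (h2 : Good c (F k (M + 1))) {n : ℕ}
    (hn : M ^ k * (M + 1) ^ k ≤ n) : ENNReal.ofReal (2 * c) ≤ rho n := by
  have hcop : Nat.Coprime (M ^ k) ((M + 1) ^ k) := by
    apply Nat.Coprime.pow
    simp
  obtain ⟨α, β, hαβ⟩ := semigroup hcop (by positivity) hn
  set N : Fin α ⊕ Fin β → ℕ := Sum.elim (fun _ => M) (fun _ => M + 1) with hN
  have hg : Good c (PiLp 2 fun i => F k (N i)) := by
    apply good_pi _ hc
    intro i
    rcases i with i | i
    · exact h1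
    · exact h2
  refine rho_ge_of_good n (PiLp 2 fun i => F k (N i)) ?_ hg
  rw [(WithLp.linearEquiv 2 ℝ (∀ i, F k (N i))).finrank_eq, Module.finrank_pi_fintype]
  simp only [finrank_F]
  rw [Fintype.sum_sum_type]
  simp only [hN, Sum.elim_inl, Sum.elim_inr]
  rw [Finset.sum_const, Finset.sum_const, Finset.card_univ, Finset.card_univ, Fintype.card_fin,
    Fintype.card_fin, smul_eq_mul, smul_eq_mul, hαβ]

end Pool.Agent.Helper68_Proj2
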